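import Pool.Agent.H242.LD.Stm

set_option autoImplicit false

/-!
# LD-LYAP: growth of the derivative along orbits which avoid the strips (helper364 for helper242)
-/

namespace Pool.Agent.H364.LD

open Real Set Metric Filter Topology
open Pool.Agent.H242.LD Pool.Agent.H242.TM

/-- the derivative of the lift of the standard map -/
noncomputable def Am (a x : ℝ) : ℝ × ℝ →L[ℝ] ℝ × ℝ :=
  ((dphi a x) • ContinuousLinearMap.fst ℝ ℝ ℝ - ContinuousLinearMap.snd ℝ ℝ ℝ).prod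
    (ContinuousLinearMap.fst ℝ ℝ ℝ)

theorem Am_apply (a x : ℝ) (w : ℝ × ℝ) : Am a x w = (dphi a x * w.1 - w.2, w.1) := rfl

theorem F_has (a : ℝ) (p : ℝ × ℝ) : HasFDerivAt (F a) (Am a p.1) p := by
  have h1 : HasFDerivAt (fun q : ℝ × ℝ => phi a q.1)
      ((dphi a p.1) • ContinuousLinearMap.fst ℝ ℝ ℝ) p :=
    (phi_hasDeriv a p.1).comp_hasFDerivAt p hasFDerivAt_fst
  exact (h1.sub hasFDerivAt_snd).prodMk hasFDerivAt_fst

/-- the derivative of the iterates -/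
noncomputable def Dn (a : ℝ) (p : ℝ × ℝ) : ℕ → (ℝ × ℝ →L[ℝ] ℝ × ℝ)
  | 0 => ContinuousLinearMap.id ℝ (ℝ × ℝ)
  | n + 1 => (Am a ((F a)^[n] p).1).comp (Dn a p n)

theorem Dn_has (a : ℝ) (p : ℝ × ℝ) (n : ℕ) : HasFDerivAt ((F a)^[n]) (Dn a p n) p := by
  induction n with
  | zero => exact hasFDerivAt_id p
  | succ n ih =>
    rw [Function.iterate_succ']
    exact (F_has a _).comp p ih

theorem Dn_surj (a : ℝ) (p : ℝ × ℝ) (n : ℕ) : Function.Surjective (Dn a p n) := by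
  induction n with
  | zero => exact fun z => ⟨z, rfl⟩
  | succ n ih =>
    intro z
    obtain ⟨w, hw⟩ := ih (z.2, dphi a ((F a)^[n] p).1 * z.2 - z.1)
    refine ⟨w, ?_⟩
    show Am a ((F a)^[n] p).1 (Dn a p n w) = z
    rw [hw, Am_apply]
    ext
    · show dphi a ((F a)^[n] p).1 * z.2 - (dphi a ((F a)^[n] p).1 * z.2 - z.1) = z.1
      ring
    · rfl

theorem Dn_pos (a : ℝ) (p : ℝ × ℝ) (n : ℕ) : 0 < ‖Dn a p n‖ := by
  rw [norm_pos_iff]
  intro h
  obtain ⟨w, hw⟩ := Dn_surj a p n (1, 0)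
  rw [h] at hw
  have := congrArg Prod.fst hw
  simp at this

theorem dphi_ge {a ω x : ℝ} {k : ℤ} (h0 : 0 < ω) (hx : x ∈ Icc (lo ω k) (hi ω k)) :
    2 * π * |a| * sin (2 * π * ω) - 2 ≤ |dphi a x| := by
  have hpi := Real.pi_pos
  have h1 : |2 * π * (x - k / 2)| ≤ π / 2 - 2 * π * ω := by
    unfold lo hi at hx
    rw [abs_le]
    constructor
    · nlinarith [hx.1]
    · nlinarith [hx.2]
  have h2 : sin (2 * π * ω) ≤ |cos (2 * π * x)| := by
    have e1 : 2 * π * x = 2 * π * (x - k / 2) + k * π := by ring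
    have e2 : |cos (2 * π * x)| = |cos (2 * π * (x - k / 2))| := by
      rw [e1, Real.cos_add_int_mul_pi, abs_mul, abs_zpow, abs_neg, abs_one, one_zpow, one_mul]
    rw [e2, ← Real.cos_pi_div_two_sub, ← Real.cos_abs (2 * π * (x - k / 2))]
    refine le_trans ?_ (le_abs_self _)
    exact Real.cos_le_cos_of_nonneg_of_le_pi (abs_nonneg _) (by nlinarith) h1
  have h3 : 2 * π * |a| * |cos (2 * π * x)| = |2 * π * a * cos (2 * π * x)| := by
    rw [abs_mul, abs_mul, abs_of_pos (by positivity : 0 < 2 * π)]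
  have h4 : 2 * π * |a| * sin (2 * π * ω) ≤ 2 * π * |a| * |cos (2 * π * x)| :=
    mul_le_mul_of_nonneg_left h2 (by positivity)
  have h5 : |2 * π * a * cos (2 * π * x)| ≤ |dphi a x| + 2 := by
    have e : 2 * π * a * cos (2 * π * x) = dphi a x - 2 := by
      unfold dphi; ring
    rw [e]
    refine (abs_sub _ _).trans ?_
    rw [abs_two]
  linarith

theorem grow {a L : ℝ} {p w : ℝ × ℝ} {n₀ : ℕ} (hL : 1 ≤ L) (hw : Dn a p n₀ w = (1, 0))
    (hd : ∀ n ≥ n₀, L + 1 ≤ |dphi a ((F a)^[n] p).1|) (m : ℕ) :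
    L ^ m ≤ |(Dn a p (n₀ + m) w).1| ∧ |(Dn a p (n₀ + m) w).2| ≤ |(Dn a p (n₀ + m) w).1| := by
  induction m with
  | zero =>
    rw [Nat.add_zero, hw]
    simp
  | succ m ih =>
    obtain ⟨h1, h2⟩ := ih
    have e : Dn a p (n₀ + (m + 1)) w = Am a ((F a)^[n₀ + m] p).1 (Dn a p (n₀ + m) w) := rfl
    rw [e, Am_apply]
    set u := (Dn a p (n₀ + m) w).1
    set v := (Dn a p (n₀ + m) w).2
    have h3 := hd (n₀ + m) (by omega)
    set d := dphi a ((F a)^[n₀ + m] p).1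
    show L ^ (m + 1) ≤ |d * u - v| ∧ |u| ≤ |d * u - v|
    have h4 : L * |u| ≤ |d * u - v| := by
      have h5 := abs_sub_abs_le_abs_sub (d * u) v
      rw [abs_mul] at h5
      have h6 : (L + 1) * |u| ≤ |d| * |u| := mul_le_mul_of_nonneg_right h3 (abs_nonneg _)
      linarith
    have h7 : 0 ≤ |u| := abs_nonneg _
    constructor
    · rw [pow_succ]
      calc L ^ m * L = L * L ^ m := by ring
        _ ≤ L * |u| := mul_le_mul_of_nonneg_left h1 (by linarith)
        _ ≤ _ := h4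
    · nlinarith

theorem fin_min (s : ℕ → ℝ) (hs : ∀ n, 0 < s n) (N : ℕ) : ∃ c > 0, ∀ n < N, c ≤ s n := by
  induction N with
  | zero => exact ⟨1, one_pos, fun n hn => absurd hn (Nat.not_lt_zero _)⟩
  | succ N ih =>
    obtain ⟨c, hc, h⟩ := ih
    refine ⟨min c (s N), lt_min hc (hs N), fun n hn => ?_⟩
    rcases Nat.lt_succ_iff_lt_or_eq.1 hn with h1 | h1
    · exact (min_le_left _ _).trans (h n h1)
    · rw [h1]
      exact min_le_right _ _

theorem ld_LYAP : S_LYAP := by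
  intro a ω p n₀ ha hω hω4 hav
  have hpi := Real.pi_pos
  have ha0 : 0 < |a| := by linarith
  have hω0 : 0 < ω := lt_trans (by positivity) hω
  have h1 : 4 / |a| < sin (2 * π * ω) := by
    have h2 := sin_ge hω0.le hω4.le
    have h3 : 4 * (1 / |a|) < 4 * ω := by linarith
    have e : 4 * (1 / |a|) = 4 / |a| := by ring
    linarith
  have h2 : 8 * π < 2 * π * |a| * sin (2 * π * ω) := by
    have h3 : 2 * π * |a| * (4 / |a|) < 2 * π * |a| * sin (2 * π * ω) :=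
      mul_lt_mul_of_pos_left h1 (by positivity)
    have e : 2 * π * |a| * (4 / |a|) = 8 * π := by field_simp; ring
    linarith
  have hL : 1 < 2 * π * |a| * sin (2 * π * ω) - 3 := by
    linarith [Real.pi_gt_three]
  refine ⟨hL, ?_⟩
  set L := 2 * π * |a| * sin (2 * π * ω) - 3 with hLd
  have hL0 : 0 < L := by linarith
  obtain ⟨w, hw⟩ := Dn_surj a p n₀ (1, 0)
  have hw0 : w ≠ 0 := by
    intro h
    rw [h, map_zero] at hw
    have := congrArg Prod.fst hw
    simp at this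
  have hwn : 0 < ‖w‖ := norm_pos_iff.2 hw0
  have hd : ∀ n ≥ n₀, L + 1 ≤ |dphi a ((F a)^[n] p).1| := by
    intro n hn
    obtain ⟨k, hk⟩ := hav n hn
    have := dphi_ge (a := a) hω0 hk
    linarith
  have hg := grow hL.le hw hd
  obtain ⟨c, hc, hcn⟩ := fin_min (fun n => ‖Dn a p n‖ / L ^ n)
    (fun n => div_pos (Dn_pos a p n) (pow_pos hL0 n)) n₀
  refine ⟨min c (1 / (‖w‖ * L ^ n₀)), lt_min hc (by positivity), fun n => ?_⟩
  rw [(Dn_has a p n).fderiv]
  rcases lt_or_ge n n₀ with hn | hn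
  · have h3 : c ≤ ‖Dn a p n‖ / L ^ n := hcn n hn
    rw [le_div_iff₀ (pow_pos hL0 n)] at h3
    refine le_trans ?_ h3
    exact mul_le_mul_of_nonneg_right (min_le_left _ _) (pow_pos hL0 n).le
  · obtain ⟨m, rfl⟩ := Nat.exists_eq_add_of_le hn
    have h3 : L ^ m ≤ ‖Dn a p (n₀ + m)‖ * ‖w‖ := by
      refine le_trans ?_ ((Dn a p (n₀ + m)).le_opNorm w)
      refine (hg m).1.trans ?_
      rw [← Real.norm_eq_abs]
      exact norm_fst_le _
    have h4 : 1 / (‖w‖ * L ^ n₀) * L ^ (n₀ + m) = L ^ m / ‖w‖ := by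
      rw [pow_add]
      field_simp
    have h5 : min c (1 / (‖w‖ * L ^ n₀)) * L ^ (n₀ + m) ≤ 1 / (‖w‖ * L ^ n₀) * L ^ (n₀ + m) :=
      mul_le_mul_of_nonneg_right (min_le_right _ _) (pow_pos hL0 _).le
    rw [h4] at h5
    refine h5.trans ?_
    rw [div_le_iff₀ hwn]
    exact h3

end Pool.Agent.H364.LD
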